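import Pool.Agent.W528.HS.Stm

/-!
The trace of the powers of an endomorphism in terms of the eigenvalues (the matrix part
follows Pool.Agent.W715.VC.TrPow).
-/

set_option autoImplicit false

namespace Pool.Agent.W63.HS.TR

open Polynomial

variable {ι : Type} [Fintype ι] [DecidableEq ι] {K : Type} [Field K] [IsAlgClosed K]

lemma charpoly_prod (A : Matrix ι ι K) : A.charpoly = (A.charpoly.roots.map fun a => X - C a).prod :=
  (IsAlgClosed.splits A.charpoly).eq_prod_roots_of_monic A.charpoly_monic

lemma card_roots' (A : Matrix ι ι K) : A.charpoly.roots.card = Fintype.card ι := by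
  rw [← (IsAlgClosed.splits A.charpoly).natDegree_eq_card_roots, A.charpoly_natDegree_eq_dim]

lemma det_scalar_sub (A : Matrix ι ι K) (r : K) :
    (Matrix.scalar ι r - A).det = (A.charpoly.roots.map fun a => r - a).prod := by
  rw [← Matrix.eval_charpoly]
  conv_lhs => rw [charpoly_prod A]
  rw [eval_multiset_prod, Multiset.map_map]
  congr 1
  refine Multiset.map_congr rfl fun a _ => ?_
  simp

lemma prod_neg_map (s : Multiset K) (f : K → K) :
    (s.map fun a => - f a).prod = (-1) ^ s.card * (s.map f).prod := by
  induction s using Multiset.induction_on with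
  | empty => simp
  | cons a s ih => rw [Multiset.map_cons, Multiset.prod_cons, ih, Multiset.map_cons,
      Multiset.prod_cons, Multiset.card_cons, pow_succ]; ring

lemma det_sub_scalar (A : Matrix ι ι K) (r : K) :
    (A - Matrix.scalar ι r).det = (A.charpoly.roots.map fun a => a - r).prod := by
  have h1 : A - Matrix.scalar ι r = - (Matrix.scalar ι r - A) := by abel
  rw [h1, Matrix.det_neg, det_scalar_sub, ← card_roots' A, ← prod_neg_map]
  congr 1
  refine Multiset.map_congr rfl fun a _ => by ring

lemma det_aeval (A : Matrix ι ι K) {p : K[X]} (hp : p.Monic) :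
    (aeval A p).det = (A.charpoly.roots.map fun a => p.eval a).prod := by
  let φ : K[X] →* K := Matrix.detMonoidHom.comp (aeval A : K[X] →ₐ[K] Matrix ι ι K).toMonoidHom
  have hφ : ∀ q, φ q = (aeval A q).det := fun q => rfl
  have hp2 := (IsAlgClosed.splits p).eq_prod_roots_of_monic hp
  rw [← hφ]
  conv_lhs => rw [hp2]
  rw [map_multiset_prod, Multiset.map_map]
  have h1 : (p.roots.map (φ ∘ fun a => X - C a)) =
      p.roots.map fun r => (A.charpoly.roots.map fun a => a - r).prod := by
    refine Multiset.map_congr rfl fun r _ => ?_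
    rw [Function.comp_apply, hφ, ← det_sub_scalar]
    congr 1
    simp [Matrix.algebraMap_eq_diagonal, Matrix.scalar_apply]
  rw [h1, Multiset.prod_map_prod_map]
  congr 1
  refine Multiset.map_congr rfl fun a _ => ?_
  conv_rhs => rw [hp2]
  rw [eval_multiset_prod, Multiset.map_map]
  congr 1
  refine Multiset.map_congr rfl fun r _ => ?_
  simp

lemma charpoly_pow (A : Matrix ι ι K) {n : ℕ} (hn : n ≠ 0) :
    (A ^ n).charpoly = (A.charpoly.roots.map fun a => X - C (a ^ n)).prod := by
  apply Polynomial.funext
  intro s
  rw [Matrix.eval_charpoly, eval_multiset_prod, Multiset.map_map]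
  have h1 : Matrix.scalar ι s - A ^ n = - (aeval A (X ^ n - C s)) := by
    simp [Matrix.algebraMap_eq_diagonal, Matrix.scalar_apply]
  rw [h1, Matrix.det_neg, det_aeval A (monic_X_pow_sub_C s hn), ← card_roots' A, ← prod_neg_map]
  congr 1
  refine Multiset.map_congr rfl fun a _ => ?_
  simp

/-- the trace of a power is the sum of the powers of the eigenvalues -/
theorem trace_pow (A : Matrix ι ι K) {n : ℕ} (hn : n ≠ 0) :
    (A ^ n).trace = (A.charpoly.roots.map fun a => a ^ n).sum := by
  rw [Matrix.trace_eq_sum_roots_charpoly, charpoly_pow A hn]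
  have : (A.charpoly.roots.map fun a => X - C (a ^ n)) =
      ((A.charpoly.roots.map fun a => a ^ n).map fun a => X - C a) := by
    rw [Multiset.map_map]; rfl
  rw [this, roots_multiset_prod_X_sub_C]



theorem main : Pool.Agent.W528.HS.TR := by
  intro E _ _ V _ _ _ Φ n
  classical
  let b := Module.finBasis E V
  have h1 : LinearMap.trace E V (Φ ^ n) = ((LinearMap.toMatrix b b Φ) ^ n).trace := by
    rw [LinearMap.trace_eq_matrix_trace E b, LinearMap.toMatrix_pow]
  rw [h1, ← LinearMap.charpoly_toMatrix Φ b]
  by_cases hn : n = 0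
  · subst hn
    have h2 := card_roots' (LinearMap.toMatrix b b Φ)
    simp only [pow_zero, Matrix.trace_one, Multiset.map_const', Multiset.sum_replicate,
      nsmul_eq_mul, mul_one]
    rw [h2]
  · exact trace_pow _ hn

end Pool.Agent.W63.HS.TR
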